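import Pool.Agent.helper97.KR.Spec

/-!
# LP: a tree has no loop and no two parallel edges
-/

set_option autoImplicit false

namespace Pool.Agent.helper97.KR

open Finset Classical

noncomputable section

theorem LP_aux (hMIN : MIN_stmt) (V E : Type) (ends : E → Sym2 V) (S : Finset V) (T : Finset E)
    (hS : ∀ e ∈ T, ∀ v ∈ ends e, v ∈ S) (hC : Con ends S (T : Set E)) (hc : T.card + 1 = S.card)
    (e : E) (he : e ∈ T)
    (h : ∀ a b, ends e = s(a, b) → Relation.ReflTransGen (Jn ends ((T.erase e : Finset E) : Set E)) a b) :
    False := by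
  have h1 : Con ends S ((T.erase e : Finset E) : Set E) := by
    intro u hu v hv
    have h2 := hC u hu v hv
    induction h2 with
    | refl => exact Relation.ReflTransGen.refl
    | tail _ hbc ih =>
      obtain ⟨e0, he0, hends⟩ := hbc
      have h3 : ∀ a b, ends e0 = s(a, b) →
          Relation.ReflTransGen (Jn ends ((T.erase e : Finset E) : Set E)) a b := by
        intro a b hab
        by_cases hee : e0 = e
        · exact h a b (hee ▸ hab)
        · refine Relation.ReflTransGen.single ⟨e0, ?_, hab⟩
          rw [Finset.mem_coe, Finset.mem_erase]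
          exact ⟨hee, Finset.mem_coe.1 he0⟩
      have hb := hS e0 (Finset.mem_coe.1 he0) _ (by rw [hends]; exact Sym2.mem_mk_left _ _)
      exact (ih hb).trans (h3 _ _ hends)
  have h2 := hMIN V E ends S (T.erase e) (fun e' he' => hS e' (Finset.mem_of_mem_erase he')) h1
  rw [Finset.card_erase_of_mem he] at h2
  have h3 : 0 < T.card := Finset.card_pos.2 ⟨e, he⟩
  omega

theorem LP (hMIN : MIN_stmt) : LP_stmt := by
  intro V E ends S T hS hC hc
  constructor
  · intro e he hd
    refine LP_aux hMIN V E ends S T hS hC hc e he ?_
    intro a b hab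
    rw [hab, Sym2.mk_isDiag_iff] at hd
    rw [hd]
  · intro e he e' he' hee
    by_contra hne
    refine LP_aux hMIN V E ends S T hS hC hc e he ?_
    intro a b hab
    refine Relation.ReflTransGen.single ⟨e', ?_, ?_⟩
    · rw [Finset.mem_coe, Finset.mem_erase]
      exact ⟨fun h => hne h.symm, he'⟩
    · rw [← hee]
      exact hab

end

end Pool.Agent.helper97.KR
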